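import Pool.Agent.W322.GT.Attach

/-!
MP_128071_co, smallest graceful tree containing a given tree: the leaf deficit bound.

Let `T` be a finite tree and `lam` the number of its non-leaves with at most one neighbour that is a
non-leaf. If `k x` leaves are added at each non-leaf `x` such that each non-leaf gets at least
`30 * lam` leaves, then the new tree is graceful. Hence `γ(T)` is at most `|E(T)|` plus the sum of
the leaf deficits `30 * lam - (number of leaves at x)` (truncated at `0`) over the non-leaves `x`,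
and `γ(T) = |E(T)|` if there is no deficit.
-/

namespace Pool.Agent.Results.MP_128071_co.LeafDeficit

open Pool.Agent.W322.GT (addLeaves)

/-- A graph with `m` edges is graceful if there is an injective map `f` of the vertices to
`{0, 1, …, m}` such that the edge labels `|f u - f v|` are exactly `1, …, m`. -/
def Graceful {V : Type} (T : SimpleGraph V) : Prop :=
  ∃ f : V → ℕ, Function.Injective f ∧ (∀ v, f v ≤ T.edgeSet.ncard) ∧
    {d : ℕ | ∃ u v : V, T.Adj u v ∧ d = Int.natAbs ((f u : ℤ) - (f v : ℤ))} =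
      Set.Icc 1 T.edgeSet.ncard

/-- The numbers of edges of the finite graceful trees which have a subgraph isomorphic to `T`. -/
def gracefulSizes {V : Type} (T : SimpleGraph V) : Set ℕ :=
  {k | ∃ (W : Type) (_ : Fintype W) (T' : SimpleGraph W),
    T'.IsTree ∧ Graceful T' ∧ T.IsContained T' ∧ T'.edgeSet.ncard = k}

/-- `γ(T)`: the least number of edges of a graceful tree which has a subgraph isomorphic to `T`. -/
noncomputable def gamma {V : Type} (T : SimpleGraph V) : ℕ := sInf (gracefulSizes T)

theorem le_of_mem {V : Type} {T : SimpleGraph V} {k : ℕ}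
    (hk : k ∈ gracefulSizes T) : T.edgeSet.ncard ≤ k := by
  classical
  obtain ⟨W, _, T', _, _, ⟨φ⟩, rfl⟩ := hk
  have hinj : Function.Injective φ := φ.injective
  have h1 : Sym2.map φ '' T.edgeSet ⊆ T'.edgeSet := by
    rintro _ ⟨e, he, rfl⟩
    induction e using Sym2.ind with
    | _ x y =>
      rw [Sym2.map_mk, SimpleGraph.mem_edgeSet]
      exact φ.toHom.map_adj ((SimpleGraph.mem_edgeSet T).1 he)
  calc T.edgeSet.ncard = (Sym2.map φ '' T.edgeSet).ncard :=
        (Set.ncard_image_of_injective _ (Sym2.map.injective hinj)).symm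
    _ ≤ T'.edgeSet.ncard := Set.ncard_le_ncard h1 (Set.toFinite _)

/-- `addLeaves T k` is the tree `T` with `k x` new vertices joined to each vertex `x`. -/
theorem result (V : Type) [Fintype V] (T : SimpleGraph V) (hT : T.IsTree) (lam : ℕ)
    (hlam : {x : V | 2 ≤ (T.neighborSet x).ncard ∧
      {y : V | T.Adj x y ∧ 2 ≤ (T.neighborSet y).ncard}.ncard ≤ 1}.ncard = lam) :
    ((∃ x, 2 ≤ (T.neighborSet x).ncard) →
      ∀ k : V → ℕ, (∀ x, ¬ 2 ≤ (T.neighborSet x).ncard → k x = 0) →
        (∀ x, 2 ≤ (T.neighborSet x).ncard →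
          30 * lam ≤ {y : V | T.Adj x y ∧ (T.neighborSet y).ncard = 1}.ncard + k x) →
        (addLeaves T k).IsTree ∧ Graceful (addLeaves T k) ∧
          (addLeaves T k).edgeSet.ncard = T.edgeSet.ncard + ∑ x, k x) ∧
    gamma T ∈ gracefulSizes T ∧
    T.edgeSet.ncard ≤ gamma T ∧
    gamma T ≤ T.edgeSet.ncard + ∑ x ∈ (Set.toFinite {x : V | 2 ≤ (T.neighborSet x).ncard}).toFinset,
      (30 * lam - {y : V | T.Adj x y ∧ (T.neighborSet y).ncard = 1}.ncard) := by
  classical
  have main : ((∃ x, 2 ≤ (T.neighborSet x).ncard) →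
      ∀ k : V → ℕ, (∀ x, ¬ 2 ≤ (T.neighborSet x).ncard → k x = 0) →
        (∀ x, 2 ≤ (T.neighborSet x).ncard →
          30 * lam ≤ {y : V | T.Adj x y ∧ (T.neighborSet y).ncard = 1}.ncard + k x) →
        (addLeaves T k).IsTree ∧ Graceful (addLeaves T k) ∧
          (addLeaves T k).edgeSet.ncard = T.edgeSet.ncard + ∑ x, k x) :=
    fun hex k hk0 hk => Pool.Agent.W322.GT.addLeaves_graceful hT lam hlam.le hex k hk0 hk
  obtain ⟨s, hs, hle⟩ : ∃ s ∈ gracefulSizes T, s ≤ T.edgeSet.ncard +
      ∑ x ∈ (Set.toFinite {x : V | 2 ≤ (T.neighborSet x).ncard}).toFinset,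
        (30 * lam - {y : V | T.Adj x y ∧ (T.neighborSet y).ncard = 1}.ncard) := by
    by_cases hex : ∃ x, 2 ≤ (T.neighborSet x).ncard
    · obtain ⟨h1, h2, h3⟩ := main hex (fun x => if 2 ≤ (T.neighborSet x).ncard then
        30 * lam - {y : V | T.Adj x y ∧ (T.neighborSet y).ncard = 1}.ncard else 0)
        (fun x hx => by simp only [if_neg hx]) (fun x hx => by
          simp only [if_pos hx]
          omega)
      refine ⟨_, ⟨_, inferInstance, _, h1, h2, Pool.Agent.W322.GT.addLeaves_contains T _, rfl⟩, ?_⟩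
      rw [h3]
      apply Nat.add_le_add_left
      rw [← Finset.sum_filter]
      apply le_of_eq
      apply Finset.sum_congr
      · ext x
        simp
      · intro x _
        rfl
    · push Not at hex
      have h1 : Graceful T :=
        Pool.Agent.W322.GT.graceful_small hT (fun x => by have := hex x; omega)
      exact ⟨T.edgeSet.ncard, ⟨V, inferInstance, T, hT, h1, SimpleGraph.IsContained.refl T, rfl⟩,
        Nat.le_add_right _ _⟩
  have hmem : gamma T ∈ gracefulSizes T := Nat.sInf_mem ⟨s, hs⟩
  exact ⟨main, hmem, le_of_mem hmem, (Nat.sInf_le hs).trans hle⟩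

end Pool.Agent.Results.MP_128071_co.LeafDeficit
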