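import Mathlib
import Pool.Agent.W321.SR.Fin
import Pool.Agent.W321.SR.Two

/-!
# The smallest graceful tree containing a given tree: an explicit bound with a power saving for few leaves

Every tree `T` with `m` edges and `lam` leaves satisfies
`m ≤ γ(T) ≤ m + 5000 m^(4/5) + 10^6 (lam m^2)^(1/3)`.
If `10^18 lam ≤ m`, the graceful tree containing `T` is `T` with `l` pendant edges at an arbitrary vertex, for
every `l` with `10^17 (m + l)^4 ≤ l^5` and `10^17 lam (m + l)^2 ≤ l^3`.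

The proof uses the theorem on trees with a vertex adjacent to many leaves and with few other leaves of
`Pool.Agent.W321.SR.Fin`: zigzags in the long bare paths, joined with free numbers.
-/

set_option autoImplicit false

namespace Pool.Agent.Results.MP_128071_co.PowerSaving

open Pool.Agent.H39R3

/-- A graph with `m` edges is graceful if there is an injective map `f` of the vertices to
`{0, 1, …, m}` such that the edge labels `|f u - f v|` are exactly `1, …, m`. -/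
def Graceful {V : Type} (T : SimpleGraph V) : Prop :=
  ∃ f : V → ℕ, Function.Injective f ∧ (∀ v, f v ≤ T.edgeSet.ncard) ∧
    {d : ℕ | ∃ u v : V, T.Adj u v ∧ d = Int.natAbs ((f u : ℤ) - (f v : ℤ))} =
      Set.Icc 1 T.edgeSet.ncard

/-- The numbers of edges of the finite graceful trees which have a subgraph isomorphic to `T`. -/
def gracefulSizes {V : Type} (T : SimpleGraph V) : Set ℕ :=
  {k | ∃ (W : Type) (_ : Fintype W) (T' : SimpleGraph W),
    T'.IsTree ∧ Graceful T' ∧ T.IsContained T' ∧ T'.edgeSet.ncard = k}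

/-- `γ(T)`: the least number of edges of a graceful tree which has a subgraph isomorphic to `T`. -/
noncomputable def gamma {V : Type} (T : SimpleGraph V) : ℕ := sInf (gracefulSizes T)

theorem le_of_mem {V : Type} {T : SimpleGraph V} {k : ℕ}
    (hk : k ∈ gracefulSizes T) : T.edgeSet.ncard ≤ k := by
  classical
  obtain ⟨W, _, T', _, _, ⟨φ⟩, rfl⟩ := hk
  have hinj : Function.Injective φ := φ.injective
  have h1 : Sym2.map φ '' T.edgeSet ⊆ T'.edgeSet := by
    rintro _ ⟨e, he, rfl⟩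
    induction e using Sym2.ind with
    | _ x y =>
      rw [Sym2.map_mk, SimpleGraph.mem_edgeSet]
      exact φ.toHom.map_adj ((SimpleGraph.mem_edgeSet T).1 he)
  calc T.edgeSet.ncard = (Sym2.map φ '' T.edgeSet).ncard :=
        (Set.ncard_image_of_injective _ (Sym2.map.injective hinj)).symm
    _ ≤ T'.edgeSet.ncard := Set.ncard_le_ncard h1 (Set.toFinite _)

/-- Let `T` be a finite tree with `m` edges and `lam` leaves.  Then `γ(T)` is attained and
`m ≤ γ(T) ≤ m + 5000 m^(4/5) + 10^6 (lam m^2)^(1/3)`.  Moreover, if `10^18 lam ≤ m`,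
`10^17 (m + l)^4 ≤ l^5` and `10^17 lam (m + l)^2 ≤ l^3`, then `T` with `l` pendant edges attached at any
vertex is a graceful tree (with `m + l` edges). -/
theorem result : ∀ (V : Type) [Fintype V] (T : SimpleGraph V), T.IsTree →
    gamma T ∈ gracefulSizes T ∧
    T.edgeSet.ncard ≤ gamma T ∧
    (gamma T : ℝ) ≤ T.edgeSet.ncard + 5000 * (T.edgeSet.ncard : ℝ) ^ (4 / 5 : ℝ) +
      10 ^ 6 * (({w : V | (T.neighborSet w).ncard = 1}.ncard : ℝ) *
        (T.edgeSet.ncard : ℝ) ^ 2) ^ (1 / 3 : ℝ) ∧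
    ∀ (v : V) (l : ℕ), 10 ^ 18 * {w : V | (T.neighborSet w).ncard = 1}.ncard ≤ T.edgeSet.ncard →
      10 ^ 17 * (T.edgeSet.ncard + l) ^ 4 ≤ l ^ 5 →
      10 ^ 17 * ({w : V | (T.neighborSet w).ncard = 1}.ncard * (T.edgeSet.ncard + l) ^ 2) ≤ l ^ 3 →
      (attach T v l 0).IsTree ∧ (attach T v l 0).edgeSet.ncard = T.edgeSet.ncard + l ∧
      Graceful (attach T v l 0) := by
  intro V _ T hT
  classical
  have h2 : ∃ k ∈ gracefulSizes T, k ≤ 2 * T.edgeSet.ncard := by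
    obtain ⟨W, i, T', h1, h2, h3, h4⟩ := Pool.Agent.W321.SR.Two.two hT
    exact ⟨_, ⟨W, i, T', h1, h2, h3, rfl⟩, h4⟩
  have hmem : gamma T ∈ gracefulSizes T := by
    obtain ⟨k, hk, _⟩ := h2
    exact Nat.sInf_mem ⟨k, hk⟩
  have hat : ∀ (v : V) (l : ℕ), 10 ^ 18 * {w : V | (T.neighborSet w).ncard = 1}.ncard ≤ T.edgeSet.ncard →
      10 ^ 17 * (T.edgeSet.ncard + l) ^ 4 ≤ l ^ 5 →
      10 ^ 17 * ({w : V | (T.neighborSet w).ncard = 1}.ncard * (T.edgeSet.ncard + l) ^ 2) ≤ l ^ 3 →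
      (attach T v l 0).IsTree ∧ (attach T v l 0).edgeSet.ncard = T.edgeSet.ncard + l ∧
      Graceful (attach T v l 0) := by
    intro v l h3 h4 h5
    obtain ⟨h6, h7⟩ := attach_isTree_card (v := v) (a := l) (b := 0) hT
    refine ⟨h6, by omega, ?_⟩
    exact Pool.Agent.W321.SR.ga V T hT v l h3 h4 h5
  refine ⟨hmem, le_of_mem hmem, ?_, hat⟩
  obtain ⟨m, hm⟩ : ∃ m, m = T.edgeSet.ncard := ⟨_, rfl⟩
  obtain ⟨lam, hlam⟩ : ∃ lam, lam = {w : V | (T.neighborSet w).ncard = 1}.ncard := ⟨_, rfl⟩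
  rw [← hm, ← hlam] at hat
  rw [← hm] at h2
  rw [← hm, ← hlam]
  by_cases hX : 5000 * (m : ℝ) ^ (4 / 5 : ℝ) + 10 ^ 6 * ((lam : ℝ) * (m : ℝ) ^ 2) ^ (1 / 3 : ℝ) ≤ m ∧
      1 ≤ m
  · obtain ⟨l, l1, l2, l3, l4⟩ := Pool.Agent.W73.SR.z_gb m lam hX.2 hX.1
    obtain ⟨v⟩ : Nonempty V := hT.1.nonempty
    obtain ⟨h6, h7, h8⟩ := hat v l l2 l3 l4
    have h9 : gamma T ≤ m + l := by
      refine Nat.sInf_le ⟨_, inferInstance, attach T v l 0, h6, h8, ?_, h7⟩
      exact ⟨SimpleGraph.Hom.toCopy ⟨Sum.inl, fun {a b} h => h⟩ Sum.inl_injective⟩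
    have h10 : (gamma T : ℝ) ≤ m + l := by exact_mod_cast h9
    linarith
  · obtain ⟨k, hk, hk2⟩ := h2
    have h9 : gamma T ≤ 2 * m := (Nat.sInf_le hk).trans hk2
    have h10 : (gamma T : ℝ) ≤ 2 * m := by exact_mod_cast h9
    have hp1 : 0 ≤ (m : ℝ) ^ (4 / 5 : ℝ) := by positivity
    have hp2 : 0 ≤ ((lam : ℝ) * (m : ℝ) ^ 2) ^ (1 / 3 : ℝ) := by positivity
    by_cases h1 : 1 ≤ m
    · have h11 : ¬ (5000 * (m : ℝ) ^ (4 / 5 : ℝ) + 10 ^ 6 * ((lam : ℝ) * (m : ℝ) ^ 2) ^ (1 / 3 : ℝ) ≤ m) :=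
        fun h => hX ⟨h, h1⟩
      push Not at h11
      linarith
    · have h12 : m = 0 := by omega
      have h13 : (m : ℝ) = 0 := by exact_mod_cast h12
      have h14 : (gamma T : ℝ) ≤ 0 := by linarith
      linarith

end Pool.Agent.Results.MP_128071_co.PowerSaving
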