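import Pool.Agent.W58.Gr.Enum

/-!
# The smallest graceful tree containing a given tree: `γ(T) ≤ 2 |E(T)| - diam T`

Let `r` be a vertex of the finite tree `T` with `m` edges and let `D` be the greatest distance from
`r`.  If `n_i` vertices have distance `i` from `r`, then `T` is contained in a graceful tree with
`m + (n_1 - 1) + ... + (n_{D-1} - 1)` edges.  With the end of a longest path as `r` it follows that
`γ(T) ≤ 2 m - diam T`.

The graceful tree is explicit: the vertices of `T` get labels in the breadth first order, from below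
on the even levels and from above on the odd levels, and the missing labels (one for each vertex
which is not the last one of its level) are joined to suitable labels, so that the missing
differences arise.
-/

namespace Pool.Agent.Results.MP_128071_co.TwiceMinusDiameter

open Pool.Agent.W58.Gr

/-- A graph with `m` edges is graceful if there is an injective map `f` of the vertices to
`{0, 1, …, m}` such that the edge labels `|f u - f v|` are exactly `1, …, m`. -/
def Graceful {V : Type} (T : SimpleGraph V) : Prop :=
  ∃ f : V → ℕ, Function.Injective f ∧ (∀ v, f v ≤ T.edgeSet.ncard) ∧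
    {d : ℕ | ∃ u v : V, T.Adj u v ∧ d = Int.natAbs ((f u : ℤ) - (f v : ℤ))} =
      Set.Icc 1 T.edgeSet.ncard

/-- The numbers of edges of the finite graceful trees which have a subgraph isomorphic to `T`. -/
def gracefulSizes {V : Type} (T : SimpleGraph V) : Set ℕ :=
  {k | ∃ (W : Type) (_ : Fintype W) (T' : SimpleGraph W),
    T'.IsTree ∧ Graceful T' ∧ T.IsContained T' ∧ T'.edgeSet.ncard = k}

/-- `γ(T)`: the least number of edges of a graceful tree which has a subgraph isomorphic to `T`. -/
noncomputable def gamma {V : Type} (T : SimpleGraph V) : ℕ := sInf (gracefulSizes T)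

lemma graceful_G {m : ℕ} (B : BFS m) : Graceful B.G := by
  refine ⟨fun v => (v : ℕ), fun u v h => Fin.ext h, fun v => ?_, ?_⟩
  · rw [B.card_edge]
    exact Nat.le_of_lt_succ v.2
  · rw [B.card_edge]
    exact B.diffs

lemma main {V : Type} [Fintype V] {T : SimpleGraph V} (hT : T.IsTree) (r w : V)
    (hw : ∀ v, T.dist r v ≤ T.dist r w) :
    ∃ k ∈ gracefulSizes T,
      k + T.dist r w = T.edgeSet.ncard + {v : V | T.dist r v < T.dist r w}.ncard := by
  classical
  set m : ℕ := T.edgeSet.ncard with hm
  have hcard : Fintype.card V = m + 1 := by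
    have h1 := hT.card_edgeFinset
    rw [hm, Set.ncard_eq_toFinset_card', ← h1]
    rfl
  obtain ⟨B, e, he, hinj, hsurj, hlev, hadj⟩ := exists_bfs hT r hcard
  have hD : B.D = T.dist r w := by
    refine le_antisymm ?_ ?_
    · obtain ⟨v, hv⟩ := hsurj m le_rfl
      calc B.D = B.lev m := rfl
        _ = B.lev (e v) := by rw [hv]
        _ = T.dist r v := hlev v
        _ ≤ T.dist r w := hw v
    · rw [← hlev]
      exact B.lev_le_D (he w)
  have hs : {v : V | T.dist r v < T.dist r w}.ncard = B.s := by
    have h1 : e '' {v : V | T.dist r v < T.dist r w} = Set.Iio B.s := by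
      ext j
      constructor
      · rintro ⟨v, hv, rfl⟩
        rw [Set.mem_Iio, B.lt_s_iff (he v), hlev, hD]
        exact hv
      · intro hj
        rw [Set.mem_Iio] at hj
        have hjm : j ≤ m := hj.le.trans B.s_le
        obtain ⟨v, hv⟩ := hsurj j hjm
        refine ⟨v, ?_, hv⟩
        rw [Set.mem_ofPred_eq, ← hlev, ← hD, hv]
        exact B.lev_lt hj
    rw [← Set.ncard_image_of_injective _ hinj, h1, ← Finset.coe_Iio, Set.ncard_coe_finset,
      Nat.card_Iio]
  refine ⟨B.k, ⟨Fin (B.k + 1), inferInstance, B.G, B.isTree, graceful_G B, ?_, B.card_edge⟩, ?_⟩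
  · let F : T →g B.G :=
      { toFun := fun v => B.vx (B.f (e v))
        map_rel' := by
          intro u v huv
          rcases hadj u v huv with ⟨h1, h2⟩ | ⟨h1, h2⟩
          · have h3 := B.adj_real h1 (he v)
            rw [h2] at h3
            exact h3.symm
          · have h3 := B.adj_real h1 (he u)
            rw [h2] at h3
            exact h3 }
    refine ⟨F.toCopy ?_⟩
    intro u v huv
    have h1 : B.vx (B.f (e u)) = B.vx (B.f (e v)) := huv
    have h2 := congrArg Fin.val h1
    rw [B.vx_val (B.f_le (he u)), B.vx_val (B.f_le (he v))] at h2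
    exact hinj (B.f_inj (he u) (he v) h2)
  · rw [hs, ← hD]
    exact B.k_add

/-- Let `T` be a finite tree.  Then `γ(T)` is attained, `γ(T) ≤ 2 |E(T)| - diam T`, and more
precisely `γ(T) ≤ |E(T)| + #{v : dist r v < D} - D` for each vertex `r`, where `D` is the greatest
distance from `r`. -/
theorem result : ∀ (V : Type) [Fintype V] (T : SimpleGraph V), T.IsTree →
    gamma T ∈ gracefulSizes T ∧
    gamma T + T.diam ≤ 2 * T.edgeSet.ncard ∧
    ∀ r w : V, (∀ v, T.dist r v ≤ T.dist r w) →
      gamma T + T.dist r w ≤ T.edgeSet.ncard + {v : V | T.dist r v < T.dist r w}.ncard := by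
  intro V _ T hT
  classical
  have hne : Nonempty V := hT.1.nonempty
  obtain ⟨a, b, hab⟩ := T.exists_dist_eq_diam
  have hfin : T.ediam ≠ ⊤ := SimpleGraph.connected_iff_ediam_ne_top.1 hT.1
  have ha : ∀ v, T.dist a v ≤ T.dist a b := fun v => by
    rw [hab]
    exact SimpleGraph.dist_le_diam hfin
  have h3 : ∀ r w : V, (∀ v, T.dist r v ≤ T.dist r w) →
      gamma T + T.dist r w ≤ T.edgeSet.ncard + {v : V | T.dist r v < T.dist r w}.ncard := by
    intro r w hw
    obtain ⟨k, hk, hk'⟩ := main hT r w hw
    have h4 : gamma T ≤ k := Nat.sInf_le hk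
    omega
  refine ⟨?_, ?_, h3⟩
  · obtain ⟨k, hk, _⟩ := main hT a b ha
    exact Nat.sInf_mem ⟨k, hk⟩
  · have h4 := h3 a b ha
    have hcard : Fintype.card V = T.edgeSet.ncard + 1 := by
      have h1 := hT.card_edgeFinset
      rw [Set.ncard_eq_toFinset_card', ← h1]
      rfl
    have h5 : {v : V | T.dist a v < T.dist a b}.ncard < Fintype.card V := by
      rw [← Nat.card_eq_fintype_card, ← Set.ncard_univ]
      refine Set.ncard_lt_ncard ?_ (Set.toFinite _)
      rw [Set.ssubset_univ_iff]
      intro h
      have h6 : b ∈ {v : V | T.dist a v < T.dist a b} := by rw [h]; exact Set.mem_univ _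
      exact lt_irrefl _ (show T.dist a b < T.dist a b from h6)
    rw [hab] at h4 h5
    omega

end Pool.Agent.Results.MP_128071_co.TwiceMinusDiameter
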